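import Pool.Agent.Helper11.SG.Goals2

/-!
# Project SG (MP_a41896_nt), part 2: QIX2
-/

set_option autoImplicit false

open MvPolynomial

namespace Pool.Agent.Helper66.SG2

open WeierstrassCurve Height Height.AdmissibleAbsValues
open Pool.Agent.Helper29.BL Pool.Agent.Helper92.Ru Pool.Agent.Helper42.SG
open Pool.Agent.Helper66.SG (sp3 sp4 pt)
open Pool.Agent.Helper11.SG

theorem scl {K : Type} [Field K] {σ : Type} (s : σ → K) (P : MvPolynomial σ K) (β : σ →₀ ℕ) :
    MvPowerSeries.coeff β (aeval (fun i => s i • (MvPowerSeries.X i : MvPowerSeries σ K)) P) =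
      (β.prod fun i k => s i ^ k) * coeff β P := by
  classical
  induction P using MvPolynomial.induction_on' with
  | monomial u a =>
    rw [aeval_monomial, ← MvPowerSeries.monomial_eq, MvPowerSeries.algebraMap_apply,
      Algebra.algebraMap_self, RingHom.id_apply, MvPowerSeries.coeff_C_mul,
      MvPowerSeries.coeff_monomial, coeff_monomial]
    by_cases h : β = u
    · subst h
      simp [mul_comm]
    · rw [if_neg h, if_neg (Ne.symm h), mul_zero, mul_zero]
  | add p q hp hq =>
    rw [map_add, map_add, hp, hq, coeff_add, mul_add]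

theorem t_QIX2 : QIX2 := by
  intro K _ _ W ξ ψ X Ψ Q p f g β hT h0 h1 hQ hdvd hβ
  classical
  obtain ⟨V, hV⟩ := hdvd
  set φ : MvPolynomial (Fin 2) K →ₐ[K] MvPowerSeries (Fin 2) K :=
    aeval (fun i : Fin 2 => X i.val) with hφ
  have e1 : φ (aeval (sp4 ξ) Q) = f * g := by
    rw [← hQ, comp_aeval_apply]
    congr 2
    funext h
    fin_cases h
    · simp [sp4, hφ]
    · simp [sp4, hφ]
    · have := hT.cX 0 (by norm_num)
      simp only [sp4, hφ]
      simp [MvPowerSeries.algebraMap_apply]
      exact this.symm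
    · have := hT.cX 1 (by norm_num)
      simp only [sp4, hφ]
      simp [MvPowerSeries.algebraMap_apply]
      exact this.symm
  have e2 : φ p = f * (g * φ V) := by
    rw [hV, map_mul, e1, mul_assoc]
  have e3 : φ p = aeval (fun i : Fin 2 => (4 * ψ i.val ^ 2) •
      (MvPowerSeries.X i : MvPowerSeries (Fin 2) K)) (shiftP (fun i : Fin 2 => ξ i.val) p) := by
    rw [shiftP, comp_aeval_apply, hφ]
    congr 2
    funext i
    rw [hT.eqX i, map_add, aeval_X, aeval_C, MvPowerSeries.algebraMap_apply,
      MvPowerSeries.smul_eq_C_mul, add_comm]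
    rfl
  have e4 : MvPowerSeries.coeff β (f * (g * φ V)) ≠ 0 := by
    rw [← e2, e3, scl (fun i : Fin 2 => 4 * ψ i.val ^ 2)]
    refine mul_ne_zero ?_ hβ
    refine Finset.prod_ne_zero_iff.2 ?_
    intro i _
    refine pow_ne_zero _ (mul_ne_zero (by norm_num) (pow_ne_zero _ ?_))
    fin_cases i
    · exact h0
    · exact h1
  by_contra hcon
  push Not at hcon
  apply e4
  rw [MvPowerSeries.coeff_mul]
  refine Finset.sum_eq_zero ?_
  intro x hx
  rw [Finset.HasAntidiagonal.mem_antidiagonal] at hx
  have hle : x.1 ≤ β := by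
    rw [← hx]
    exact le_self_add
  rw [hcon x.1 hle, zero_mul]

end Pool.Agent.Helper66.SG2
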