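import Pool.Agent.Helper11.SG.Goals2
import Pool.Agent.Helper65.SG.Tay

/-!
# Project SG (MP_a41896_nt), part 2: TAYZ
-/

set_option autoImplicit false

open MvPolynomial

namespace Pool.Agent.Helper66.SG2

open WeierstrassCurve Height Height.AdmissibleAbsValues
open Pool.Agent.Helper29.BL Pool.Agent.Helper92.Ru Pool.Agent.Helper42.SG
open Pool.Agent.Helper66.SG (sp3 sp4 pt)
open Pool.Agent.Helper11.SG Pool.Agent.Helper65.SG

theorem t_TAYZ : TAYZ := by
  classical
  intro K _ _ W
  refine ⟨BT W, PlC_BT W, fun ξ ψ hpt _ _ => ?_⟩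
  have hex : ∀ h : Fin 2, ∃ P : MvPowerSeries (Fin 2) K,
      P ^ 2 = Bf ((W (h.val % 2)).map (algebraMap K (MvPowerSeries (Fin 2) K)))
        (MvPowerSeries.C (ξ h.val) +
          MvPowerSeries.C (4 * ψ h.val ^ 2) * MvPowerSeries.X h) ∧
      MvPowerSeries.constantCoeff P = ψ h.val ∧
      ∀ (v : AbsoluteValue K ℝ) (r : Fin 2 → ℝ) (β : ℝ), (∀ i, 0 < r i) →
        bet (W (h.val % 2)) v ≤ β →
        r h = 1 / (c2 v ^ 10 * β * Mv v (ξ h.val) ^ 2) →
        NPS v r (MvPowerSeries.C (ξ h.val) +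
          MvPowerSeries.C (4 * ψ h.val ^ 2) * MvPowerSeries.X h) (c2 v * Mv v (ξ h.val)) ∧
        NPS v r P (c2 v ^ 10 * β * Mv v (ξ h.val) ^ 2) :=
    fun h => tay_point (W (h.val % 2)) h (ξ h.val) (ψ h.val) (hpt h.val (by omega))
  choose P hP1 hP2 hP3 using hex
  refine ⟨fun h => if H : h < 2 then MvPowerSeries.C (ξ h) +
    MvPowerSeries.C (4 * ψ h ^ 2) * MvPowerSeries.X ⟨h, H⟩ else MvPowerSeries.C (ξ h),
    fun h => if H : h < 2 then P ⟨h, H⟩ else MvPowerSeries.C (ψ h), ⟨?_, ?_, ?_, ?_, ?_⟩, ?_⟩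
  · intro h hh
    by_cases H : h < 2
    · simp only [H, dif_pos]
      exact hP1 ⟨h, H⟩
    · simp only [H, dif_neg, not_false_eq_true]
      have hE := congrArg (MvPowerSeries.C (σ := Fin 2) (R := K)) (hpt h (by omega))
      have ha : ∀ x : K, algebraMap K (MvPowerSeries (Fin 2) K) x = MvPowerSeries.C x :=
        fun x => by
          rw [MvPowerSeries.algebraMap_apply, Algebra.algebraMap_self_apply]
      unfold Bf at hE ⊢
      simp only [mapW, WeierstrassCurve.map_b₂, WeierstrassCurve.map_b₄, WeierstrassCurve.map_b₆,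
        ha, map_add, map_mul, map_pow, map_ofNat] at hE ⊢
      exact hE
  · intro h
    simp only [h.isLt, dif_pos, Fin.eta]
  · intro h
    simp only [h.isLt, dif_pos, Fin.eta]
    exact hP2 h
  · intro i _
    have H : ¬ 2 + i < 2 := by omega
    simp only [H, dif_neg, not_false_eq_true]
  · intro i _
    have H : ¬ 2 + i < 2 := by omega
    simp only [H, dif_neg, not_false_eq_true]
  · intro v h hh
    have hr : ∀ i : Fin 2, 0 < 1 / (BT W v * Mv v (ξ i.val) ^ 2) := by
      intro i
      have h1 := (PlC_BT W).one_le v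
      have h2 := Mv_pos v (ξ i.val)
      positivity
    have hN := nfr_nps (K := K) v hr
    have h1 := one_le_c2 v
    have h2 := one_le_b01 W v
    have hc : c2 v ≤ BT W v := by
      calc c2 v ≤ c2 v ^ 10 := le_self_pow₀ h1 (by norm_num)
        _ ≤ c2 v ^ 10 * b01 W v := le_mul_of_one_le_right (by positivity) h2
    by_cases H : h < 2
    · simp only [H, dif_pos]
      have := hP3 ⟨h, H⟩ v (fun i => 1 / (BT W v * Mv v (ξ i.val) ^ 2)) (b01 W v) hr
        (bet_le_b01 W v h) rfl
      refine ⟨hN.mono _ _ _ this.1 ?_, this.2⟩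
      exact mul_le_mul_of_nonneg_right hc (Mv_pos v _).le
    · simp only [H, dif_neg, not_false_eq_true]
      have hC : ∀ (x : K) (T : ℝ), v x ≤ T →
          NPS v (fun i : Fin 2 => 1 / (BT W v * Mv v (ξ i.val) ^ 2))
            (MvPowerSeries.C x : MvPowerSeries (Fin 2) K) T := by
        intro x T hx
        have := hN.const x
        rw [MvPowerSeries.algebraMap_apply, Algebra.algebraMap_self_apply] at this
        exact hN.mono _ _ _ this hx
      constructor
      · refine hC _ _ ?_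
        refine (le_max_right 1 (v (ξ h)) : v (ξ h) ≤ Mv v (ξ h)).trans ?_
        exact le_mul_of_one_le_left (Mv_pos v _).le (h1.trans hc)
      · refine hC _ _ ?_
        obtain ⟨-, -, -, -, e5⟩ := tay_est (W (h % 2)) v (b01 W v) (bet_le_b01 W v h) (ξ h) (ψ h)
          (hpt h (by omega))
        refine e5.trans ?_
        have h3 : c2 v ^ 2 ≤ c2 v ^ 10 := pow_le_pow_right₀ h1 (by norm_num)
        have h4 := Mv_pos v (ξ h)
        rw [BT]
        gcongr

end Pool.Agent.Helper66.SG2
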