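import Pool.Agent.Helper68.SG2.GoalsT

/-!
# Project SG stage 2 (MP_a41896_nt), packet SH2-NQVT: evaluation of the reduction
-/

set_option autoImplicit false

namespace Pool.Agent.Helper66.SG2

open MvPolynomial WeierstrassCurve
open Pool.Agent.Helper29.BL Pool.Agent.Helper92.Ru Pool.Agent.Helper42.SG
open Pool.Agent.Helper65.SG Pool.Agent.Helper68.SG2

theorem t_NQVT : NQVT := by
  intro K _ T W n F A _ _ x Ψ hW hF
  have hBf : ∀ (i : ℕ) (t : MvPolynomial (Fin (2 * n + 2)) K),
      aeval (fun h : Fin (2 * n + 2) => x h.val)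
        (Bf (mapW (MvPolynomial (Fin (2 * n + 2)) K) W i) t) =
      Bf (mapW A W i) (aeval (fun h : Fin (2 * n + 2) => x h.val) t) := by
    intro i t
    simp only [Bf, mapW, WeierstrassCurve.map_b₂, WeierstrassCurve.map_b₄,
      WeierstrassCurve.map_b₆, map_add, map_mul, map_pow, map_ofNat, AlgHom.commutes]
  have hR : aeval (Sum.elim (fun h : Fin (2 * n + 2) => x h.val)
      (fun h : Fin (2 * n + 2) => Ψ h.val)) F = ∑ m ∈ F.support, algebraMap K A (coeff m F) *
        ∏ i, (Sum.elim (fun h : Fin (2 * n + 2) => x h.val)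
          (fun h : Fin (2 * n + 2) => Ψ h.val) i) ^ m i := by
    rw [aeval_def, eval₂_eq']
  rw [hR, red, map_sum]
  refine Finset.sum_congr rfl fun m hm => ?_
  rw [map_mul, map_prod, Fintype.prod_sum_type, ← Finset.prod_mul_distrib]
  have hC : aeval (fun h : Fin (2 * n + 2) => x h.val) (C (coeff m F)) =
      algebraMap K A (coeff m F) := by
    rw [aeval_C]
  rw [hC]
  congr 1
  refine Finset.prod_congr rfl fun h _ => ?_
  rw [map_mul, map_pow, map_pow, hBf, aeval_X]
  simp only [Sum.elim_inl, Sum.elim_inr]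
  congr 1
  obtain ⟨⟨b, hb⟩, hT⟩ := hF m hm h
  cases hTh : T (h.val % 2) with
  | true => rw [hT hTh]; simp
  | false =>
    rw [← (hW h.val h.isLt).2 hTh, hb, ← two_mul, Nat.mul_div_cancel_left b (by norm_num),
      pow_mul]

end Pool.Agent.Helper66.SG2
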